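import Pool.Agent.Helper54.PT.DefsF
import Pool.Agent.Helper19.TW.C5b

/-!
# Module B12: the local conditions `M`
-/

set_option autoImplicit false

namespace Pool.Agent.Helper54.PT

open Polynomial Finset Filter Topology Module

namespace B12

variable {F : Type} [Field F] [Finite F] {lg : F → ZMod 2} {σ : Type} [Fintype σ] [DecidableEq σ]
  {R : σ → Prm F}

theorem bclF_mul (hlg : IsLog 2 lg) {x y : RatFunc F} (hx : x ≠ 0) (hy : y ≠ 0)
    (s : Option σ) : bclF R lg (x * y) s = bclF R lg x s + bclF R lg y s := by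
  cases s with
  | none => simp only [bclF]; rw [lcK_mul hx hy, hlg.1 _ _ (lcK_ne_zero hx) (lcK_ne_zero hy)]
  | some r => simp only [bclF]; rw [ordK_mul _ hx hy]; push_cast; ring

theorem ordK_zero_of_not_dvd (Q : Prm F) {f : F[X]} (hf : f ≠ 0) (h : ¬ Q.1 ∣ f) :
    ordK Q (algebraMap F[X] (RatFunc F) f) = 0 := by
  rw [ordK_poly Q hf, multiplicity_eq_zero.2 h, Nat.cast_zero]

theorem zl_zero (dR : σ → ZMod 2) (sR : σ → σ → ZMod 2) (y : Option σ → ZMod 2)
    (t : Option σ) : zl dR sR 0 y t = y t := by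
  cases t <;> simp [zl]

theorem zl_congr (dR : σ → ZMod 2) (sR : σ → σ → ZMod 2) {b b' y y' : Option σ → ZMod 2}
    (h : b = b') (h' : y = y') (t : Option σ) : zl dR sR b y t = zl dR sR b' y' t := by
  rw [h, h']

/-- The data at one place: `c` is the class map at the place `t`. -/
theorem tor_mem {K : Type} [Field K] {c : K → ZMod 2 × ZMod 2} {α β : K}
    {A B C : Option σ → ZMod 2} (dR : σ → ZMod 2) (sR : σ → σ → ZMod 2) (t : Option σ)
    (hA : c α = (A t, zl dR sR A 0 t)) (hB : c β = (B t, zl dR sR B 0 t))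
    (hC : c (β - α) = (C t, zl dR sR C 0 t))
    (hAC : c (α * (β - α)) = (A t + C t, zl dR sR (fun s => A s + C s) 0 t))
    (hAB : c (α * β) = (A t + B t, zl dR sR (fun s => A s + B s) 0 t))
    (k : ZMod 2) (v : Fin 2 → ZMod 2) :
    LocK c α β (0, k) ((fun j => tauF A B C v j t,
      fun j => zl dR sR (fun s => tauF A B C v j s) 0 t + k * v j) : LS) := by
  have h01 : ∀ z : ZMod 2, z = 0 ∨ z = 1 := by decide
  have e2 : ∀ z : ZMod 2, z + z = 0 := by decide
  have e3 : ∀ z w : ZMod 2, z + (z + w) = w := by decide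
  have e4 : ∀ z w : ZMod 2, z + w + z = w := by decide
  have hτ0 : ∀ (v : Fin 2 → ZMod 2) (s : Option σ),
      tauF A B C v 0 s = v 0 * A s + v 1 * (A s + B s) := fun v s => rfl
  have hτ1 : ∀ (v : Fin 2 → ZMod 2) (s : Option σ),
      tauF A B C v 1 s = v 0 * (A s + C s) + v 1 * A s := fun v s => rfl
  have hw : ((fun j => tauF A B C v j t,
      fun j => zl dR sR (fun s => tauF A B C v j s) 0 t + k * v j) : LS) =
      mkL (tauF A B C v 0 t, zl dR sR (fun s => tauF A B C v 0 s) 0 t + k * v 0)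
        (tauF A B C v 1 t, zl dR sR (fun s => tauF A B C v 1 s) 0 t + k * v 1) := by
    refine Prod.ext ?_ ?_ <;> funext j <;> fin_cases j <;> rfl
  rw [hw]
  rcases h01 (v 0) with h0 | h0 <;> rcases h01 (v 1) with h1 | h1
  · left
    have z0 : (fun s => tauF A B C v 0 s) = (0 : Option σ → ZMod 2) := by
      funext s; rw [hτ0, h0, h1]; simp
    have z1 : (fun s => tauF A B C v 1 s) = (0 : Option σ → ZMod 2) := by
      funext s; rw [hτ1, h0, h1]; simp
    rw [z0, z1, hτ0, hτ1, h0, h1, zl_zero]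
    refine Prod.ext ?_ ?_ <;> funext j <;> fin_cases j <;> simp [mkL]
  · right; left
    have z0 : (fun s => tauF A B C v 0 s) = fun s => A s + B s := by
      funext s; rw [hτ0, h0, h1]; simp
    have z1 : (fun s => tauF A B C v 1 s) = A := by
      funext s; rw [hτ1, h0, h1]; simp
    rw [z0, z1, hτ0, hτ1, h0, h1, hAB, hA]
    congr 1
    · simp
    · simp [add_comm]
  · right; right; left
    have z0 : (fun s => tauF A B C v 0 s) = A := by
      funext s; rw [hτ0, h0, h1]; simp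
    have z1 : (fun s => tauF A B C v 1 s) = fun s => A s + C s := by
      funext s; rw [hτ1, h0, h1]; simp
    rw [z0, z1, hτ0, hτ1, h0, h1, hAC, hA]
    congr 1
    · simp [add_comm]
    · simp
  · right; right; right; left
    have z0 : (fun s => tauF A B C v 0 s) = B := by
      funext s; rw [hτ0, h0, h1, one_mul, one_mul, e3]
    have z1 : (fun s => tauF A B C v 1 s) = C := by
      funext s; rw [hτ1, h0, h1, one_mul, one_mul, e4]
    rw [z0, z1, hτ0, hτ1, h0, h1, hB, hC, show (1 : ZMod 2) * A t + 1 * (A t + B t) = B t by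
      rw [one_mul, one_mul, e3], show (1 : ZMod 2) * (A t + C t) + 1 * A t = C t by
      rw [one_mul, one_mul, e4]]
    congr 1
    · simp [add_comm]
    · simp [add_comm]

end B12

section RatFunc

variable {F : Type} [Field F] [Finite F] {lg : F → ZMod 2} {σ : Type} [Fintype σ] [DecidableEq σ]
  {R : σ → Prm F} {α β : F[X]}

/-- B12 with the other modules as hypotheses. -/
theorem exists_M_of
    (b1 : ∀ P : Prm F, IsCls (clsP lg P)) (b2 : IsCls (clsI (F := F) lg))
    (b3 : ∀ {c : RatFunc F → ZMod 2 × ZMod 2} (_ : IsCls c) {α β : RatFunc F} (_ : α ≠ 0)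
      (_ : β ≠ 0) (_ : β - α ≠ 0) (κ : ZMod 2 × ZMod 2) (w w' : LS) (_ : LocK c α β κ w)
      (_ : LocK c α β κ w'), qL (c (α * (β - α))) (c (α * β)) w = 0 ∧ bL w w' = 0)
    (b3b : ∀ {c : RatFunc F → ZMod 2 × ZMod 2} (_ : IsCls c) {α β : RatFunc F} (_ : α ≠ 0)
      (_ : β ≠ 0) (_ : β - α ≠ 0), pz (c (α * (β - α))) (c (α * β)) = 0)
    (b4 : ∀ (g₁ g₂ : ZMod 2 × ZMod 2) (_ : pz g₁ g₂ = 0) (W : LS → Prop)
      (_ : ∀ w w', W w → W w' → qL g₁ g₂ w = 0 ∧ bL w w' = 0),
      ∃ M : Submodule (ZMod 2) LS, finrank (ZMod 2) M = 2 ∧ (∀ w ∈ M, qL g₁ g₂ w = 0) ∧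
      ∀ w, W w → w ∈ M)
    (b6 : ∀ (P : Prm F) {α β : F[X]} (_ : α ≠ 0)
      (_ : β ≠ 0) (_ : β - α ≠ 0) (_ : P.1 ∣ α * β * (β - α)) (_ : ¬ (P.1 ∣ α ∧ P.1 ∣ β)),
      ∃ M : ZMod 2 → Submodule (ZMod 2) LS, (∀ c, finrank (ZMod 2) (M c) = 2) ∧
      (∀ c, ∀ w ∈ M c, qL
        (clsP lg P (algebraMap F[X] (RatFunc F) α * (algebraMap F[X] (RatFunc F) β -
          algebraMap F[X] (RatFunc F) α)))
        (clsP lg P (algebraMap F[X] (RatFunc F) α * algebraMap F[X] (RatFunc F) β)) w = 0) ∧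
      (∀ (c : ZMod 2) (w : LS), LocK (clsP lg P) (algebraMap F[X] (RatFunc F) α)
        (algebraMap F[X] (RatFunc F) β) (0, c) w → w ∈ M c) ∧
      finrank (ZMod 2) (M 0 ⊓ M 1 : Submodule (ZMod 2) LS) = 1)
    (hlg : IsLog 2 lg)
    (hrec : ∀ P Q : Prm F, P ≠ Q → sy lg Q.1 P.1 = sy lg P.1 Q.1)
    (b11a : ∀ (D : Finset (pd lg hrec R).P) {x : RatFunc F} (_ : x ≠ 0)
      (_ : ∀ Q : Prm F, Q ∉ und lg hrec R D → (∀ r, Q ≠ R r) → (ordK Q x : ZMod 2) = 0) (r : σ),
      clsP lg (R r) x = (bclF R lg x (some r),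
      zl (fun r => ((R r).1.natDegree : ZMod 2)) (fun r r' => sy lg (R r).1 (R r').1)
        (bclF R lg x) (fun s => ∑ p : D, (pd lg hrec R).xx p.1 s * (ordK p.1.1 x : ZMod 2))
        (some r)))
    (b11b : ∀ (D : Finset (pd lg hrec R).P) {x : RatFunc F} (_ : x ≠ 0)
      (_ : ∀ Q : Prm F, Q ∉ und lg hrec R D → (∀ r, Q ≠ R r) → (ordK Q x : ZMod 2) = 0),
      clsI lg x = (bclF R lg x none,
      zl (fun r => ((R r).1.natDegree : ZMod 2)) (fun r r' => sy lg (R r).1 (R r').1)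
        (bclF R lg x) (fun s => ∑ p : D, (pd lg hrec R).xx p.1 s * (ordK p.1.1 x : ZMod 2))
        none))
    (hS : SetupF R α β)
    (r₀ : σ) (hr₀ : ¬ ((R r₀).1 ∣ α ∧ (R r₀).1 ∣ β)) :
    ∃ M : Option σ → ZMod 2 → Submodule (ZMod 2) LS,
      LD (fun r => ((R r).1.natDegree : ZMod 2)) (fun r r' => sy lg (R r).1 (R r').1)
        (bclF R lg (algebraMap F[X] (RatFunc F) α)) (bclF R lg (algebraMap F[X] (RatFunc F) β))
        (bclF R lg (algebraMap F[X] (RatFunc F) (β - α))) M ∧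
      (∀ (r : σ) (c : ZMod 2) (w : LS), LocK (clsP lg (R r)) (algebraMap F[X] (RatFunc F) α)
        (algebraMap F[X] (RatFunc F) β) (0, c) w → w ∈ M (some r) c) ∧
      (∀ (c : ZMod 2) (w : LS), LocK (clsI lg) (algebraMap F[X] (RatFunc F) α)
        (algebraMap F[X] (RatFunc F) β) (0, c) w → w ∈ M none c) ∧
      finrank (ZMod 2) (M (some r₀) 0 ⊓ M (some r₀) 1 : Submodule (ZMod 2) LS) = 1 := by
  classical
  have ha : algebraMap F[X] (RatFunc F) α ≠ 0 := RatFunc.algebraMap_ne_zero hS.hα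
  have hb : algebraMap F[X] (RatFunc F) β ≠ 0 := RatFunc.algebraMap_ne_zero hS.hβ
  have hg' : algebraMap F[X] (RatFunc F) (β - α) ≠ 0 := RatFunc.algebraMap_ne_zero hS.hγ
  have hsub : algebraMap F[X] (RatFunc F) (β - α) =
      algebraMap F[X] (RatFunc F) β - algebraMap F[X] (RatFunc F) α := map_sub _ _ _
  have hg : algebraMap F[X] (RatFunc F) β - algebraMap F[X] (RatFunc F) α ≠ 0 := hsub ▸ hg'
  -- the orders at the good primes
  have hord : ∀ f : F[X], f ≠ 0 → f ∣ α * β * (β - α) → ∀ Q : Prm F, (∀ r, Q ≠ R r) →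
      ordK Q (algebraMap F[X] (RatFunc F) f) = 0 := by
    intro f hf hd Q hQ
    refine B12.ordK_zero_of_not_dvd Q hf fun h => ?_
    obtain ⟨r, hr⟩ := (hS.mem Q).2 (h.trans hd)
    exact hQ r hr.symm
  have hy0 : ∀ x : RatFunc F, (fun s => ∑ p : (∅ : Finset (pd lg hrec R).P),
      (pd lg hrec R).xx p.1 s * (ordK p.1.1 x : ZMod 2)) = (0 : Option σ → ZMod 2) := by
    intro x
    funext s
    exact Finset.sum_of_isEmpty _
  have hcl : ∀ f : F[X], f ≠ 0 → (∀ Q : Prm F, (∀ r, Q ≠ R r) →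
      ordK Q (algebraMap F[X] (RatFunc F) f) = 0) → ∀ r : σ,
      clsP lg (R r) (algebraMap F[X] (RatFunc F) f) =
        (bclF R lg (algebraMap F[X] (RatFunc F) f) (some r),
          zl (fun r => ((R r).1.natDegree : ZMod 2)) (fun r r' => sy lg (R r).1 (R r').1)
            (bclF R lg (algebraMap F[X] (RatFunc F) f)) 0 (some r)) := by
    intro f hf hQ r
    rw [b11a ∅ (RatFunc.algebraMap_ne_zero hf) (fun Q _ h2 => by rw [hQ Q h2, Int.cast_zero]) r,
      hy0]
  have hclI : ∀ f : F[X], f ≠ 0 → (∀ Q : Prm F, (∀ r, Q ≠ R r) →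
      ordK Q (algebraMap F[X] (RatFunc F) f) = 0) →
      clsI lg (algebraMap F[X] (RatFunc F) f) =
        (bclF R lg (algebraMap F[X] (RatFunc F) f) none,
          zl (fun r => ((R r).1.natDegree : ZMod 2)) (fun r r' => sy lg (R r).1 (R r').1)
            (bclF R lg (algebraMap F[X] (RatFunc F) f)) 0 none) := by
    intro f hf hQ
    rw [b11b ∅ (RatFunc.algebraMap_ne_zero hf) (fun Q _ h2 => by rw [hQ Q h2, Int.cast_zero]),
      hy0]
  have hmulb : ∀ f g : F[X], f ≠ 0 → g ≠ 0 →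
      bclF R lg (algebraMap F[X] (RatFunc F) (f * g)) = fun s =>
        bclF R lg (algebraMap F[X] (RatFunc F) f) s +
          bclF R lg (algebraMap F[X] (RatFunc F) g) s := by
    intro f g hf hg
    funext s
    rw [map_mul, B12.bclF_mul hlg (RatFunc.algebraMap_ne_zero hf) (RatFunc.algebraMap_ne_zero hg)]
  have hmulo : ∀ f g : F[X], f ≠ 0 → g ≠ 0 → ∀ Q : Prm F,
      ordK Q (algebraMap F[X] (RatFunc F) f) = 0 → ordK Q (algebraMap F[X] (RatFunc F) g) = 0 →
      ordK Q (algebraMap F[X] (RatFunc F) (f * g)) = 0 := by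
    intro f g hf hg Q h1 h2
    rw [map_mul, ordK_mul Q (RatFunc.algebraMap_ne_zero hf) (RatFunc.algebraMap_ne_zero hg), h1,
      h2, add_zero]
  have oα := hord α hS.hα ⟨β * (β - α), by ring⟩
  have oβ := hord β hS.hβ ⟨α * (β - α), by ring⟩
  have oγ := hord (β - α) hS.hγ ⟨α * β, by ring⟩
  have oαβ : ∀ Q : Prm F, (∀ r, Q ≠ R r) →
      ordK Q (algebraMap F[X] (RatFunc F) (α * β)) = 0 :=
    fun Q hQ => hmulo _ _ hS.hα hS.hβ Q (oα Q hQ) (oβ Q hQ)
  have oαγ : ∀ Q : Prm F, (∀ r, Q ≠ R r) →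
      ordK Q (algebraMap F[X] (RatFunc F) (α * (β - α))) = 0 :=
    fun Q hQ => hmulo _ _ hS.hα hS.hγ Q (oα Q hQ) (oγ Q hQ)
  have nαβ : α * β ≠ 0 := mul_ne_zero hS.hα hS.hβ
  have nαγ : α * (β - α) ≠ 0 := mul_ne_zero hS.hα hS.hγ
  -- the class maps at the places
  let cc : Option σ → RatFunc F → ZMod 2 × ZMod 2 := fun t => match t with
    | some r => clsP lg (R r)
    | none => clsI lg
  have hcc : ∀ t, IsCls (cc t) := by
    intro t
    cases t with
    | none => exact b2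
    | some r => exact b1 (R r)
  have hcv : ∀ (t : Option σ) (f : F[X]), f ≠ 0 → (∀ Q : Prm F, (∀ r, Q ≠ R r) →
      ordK Q (algebraMap F[X] (RatFunc F) f) = 0) →
      cc t (algebraMap F[X] (RatFunc F) f) =
        (bclF R lg (algebraMap F[X] (RatFunc F) f) t,
          zl (fun r => ((R r).1.natDegree : ZMod 2)) (fun r r' => sy lg (R r).1 (R r').1)
            (bclF R lg (algebraMap F[X] (RatFunc F) f)) 0 t) := by
    intro t f hf hQ
    cases t with
    | none => exact hclI f hf hQ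
    | some r => exact hcl f hf hQ r
  have hA := fun t => hcv t α hS.hα oα
  have hB := fun t => hcv t β hS.hβ oβ
  have hC := fun t => hcv t (β - α) hS.hγ oγ
  have hAB := fun t => hcv t (α * β) nαβ oαβ
  have hAC := fun t => hcv t (α * (β - α)) nαγ oαγ
  have hAC' : ∀ t, cc t (algebraMap F[X] (RatFunc F) α * (algebraMap F[X] (RatFunc F) β -
      algebraMap F[X] (RatFunc F) α)) =
        (bclF R lg (algebraMap F[X] (RatFunc F) α) t +
          bclF R lg (algebraMap F[X] (RatFunc F) (β - α)) t,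
        zl (fun r => ((R r).1.natDegree : ZMod 2)) (fun r r' => sy lg (R r).1 (R r').1)
          (fun s => bclF R lg (algebraMap F[X] (RatFunc F) α) s +
            bclF R lg (algebraMap F[X] (RatFunc F) (β - α)) s) 0 t) := by
    intro t
    rw [← hsub, ← map_mul, hAC t, hmulb α (β - α) hS.hα hS.hγ]
  have hAB' : ∀ t, cc t (algebraMap F[X] (RatFunc F) α * algebraMap F[X] (RatFunc F) β) =
        (bclF R lg (algebraMap F[X] (RatFunc F) α) t +
          bclF R lg (algebraMap F[X] (RatFunc F) β) t,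
        zl (fun r => ((R r).1.natDegree : ZMod 2)) (fun r r' => sy lg (R r).1 (R r').1)
          (fun s => bclF R lg (algebraMap F[X] (RatFunc F) α) s +
            bclF R lg (algebraMap F[X] (RatFunc F) β) s) 0 t) := by
    intro t
    rw [← map_mul, hAB t, hmulb α β hS.hα hS.hβ]
  -- the choice at every place
  have key : ∀ t : Option σ, ∃ M : ZMod 2 → Submodule (ZMod 2) LS,
      (∀ c, finrank (ZMod 2) (M c) = 2) ∧
      (∀ c, ∀ w ∈ M c, qL
        (cc t (algebraMap F[X] (RatFunc F) α * (algebraMap F[X] (RatFunc F) β -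
          algebraMap F[X] (RatFunc F) α)))
        (cc t (algebraMap F[X] (RatFunc F) α * algebraMap F[X] (RatFunc F) β)) w = 0) ∧
      (∀ (c : ZMod 2) (w : LS), LocK (cc t) (algebraMap F[X] (RatFunc F) α)
        (algebraMap F[X] (RatFunc F) β) (0, c) w → w ∈ M c) ∧
      (t = some r₀ → finrank (ZMod 2) (M 0 ⊓ M 1 : Submodule (ZMod 2) LS) = 1) := by
    intro t
    by_cases ht : t = some r₀
    · subst ht
      obtain ⟨M, h1, h2, h3, h4⟩ := b6 (R r₀) hS.hα hS.hβ hS.hγ ((hS.mem _).1 ⟨r₀, rfl⟩) hr₀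
      exact ⟨M, h1, h2, h3, fun _ => h4⟩
    · have h := fun c : ZMod 2 => b4 _ _ (b3b (hcc t) ha hb hg)
        (LocK (cc t) (algebraMap F[X] (RatFunc F) α) (algebraMap F[X] (RatFunc F) β) (0, c))
        (fun w w' hw hw' => b3 (hcc t) ha hb hg (0, c) w w' hw hw')
      choose M h1 h2 h3 using h
      exact ⟨M, h1, h2, h3, fun h => absurd h ht⟩
  choose M h1 h2 h3 h4 using key
  refine ⟨M, ?_, fun r c w hw => h3 (some r) c w hw, fun c w hw => h3 none c w hw,
    h4 (some r₀) rfl⟩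
  refine ⟨?_, h1, ?_, ?_⟩
  · intro r r' hrr
    exact hrec (R r') (R r) fun h => hrr (hS.inj h).symm
  · intro t c w hw
    have h := h2 t c w hw
    rw [hAC' t, hAB' t] at h
    exact h
  · intro t c v
    refine h3 t c _ ?_
    refine B12.tor_mem (c := cc t) (fun r => ((R r).1.natDegree : ZMod 2))
      (fun r r' => sy lg (R r).1 (R r').1) t (hA t) (hB t) ?_ (hAC' t) (hAB' t) c v
    rw [← hsub]
    exact hC t

end RatFunc

end Pool.Agent.Helper54.PT
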